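import Pool.Agent.X86.MJ.Main

/-! # The Berger-Wang formulas fail for the minimax joint spectral radii -/

set_option autoImplicit false

open Filter Topology

namespace Pool.Agent.Results.MP_36f7ac_an.NoBergerWang

open Pool.Agent.X86.MJ

/-- **All four identities fail, for one and the same pair of finite sets of `5 × 5` matrices:**
`μ` and `η` are at least `1`, whereas `μ̂ = μ̌ = η̂ = η̌ = 0`. -/
theorem _root_.Pool.Agent.Results.MP_36f7ac_an.NoBergerWang.result :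
    ∃ 𝒜 ℬ : Finset (Mat 5), 𝒜.Nonempty ∧ ℬ.Nonempty ∧ ∃ μ η : ℝ,
      Tendsto (fun n : ℕ => maxMin nrm 𝒜 ℬ n ^ (1 / (n : ℝ))) atTop (𝓝 μ) ∧
      Tendsto (fun n : ℕ => minMax nrm 𝒜 ℬ n ^ (1 / (n : ℝ))) atTop (𝓝 η) ∧
      1 ≤ μ ∧ 1 ≤ η ∧
      limsup (fun n : ℕ => maxMin rho 𝒜 ℬ n ^ (1 / (n : ℝ))) atTop = 0 ∧
      liminf (fun n : ℕ => maxMin rho 𝒜 ℬ n ^ (1 / (n : ℝ))) atTop = 0 ∧
      limsup (fun n : ℕ => minMax rho 𝒜 ℬ n ^ (1 / (n : ℝ))) atTop = 0 ∧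
      liminf (fun n : ℕ => minMax rho 𝒜 ℬ n ^ (1 / (n : ℝ))) atTop = 0 := by
  obtain ⟨μ, hμ1, hμ⟩ := exists_lim one_le_maxMin (maxMin_mul_le SA_nonempty SB_nonempty)
  obtain ⟨η, hη1, hη⟩ := exists_lim one_le_minMax (minMax_mul_le SA_nonempty SB_nonempty)
  have key : ∀ f : ℕ → ℝ, (∀ n, f (n + 1) = 0) →
      Tendsto (fun n : ℕ => f n ^ (1 / (n : ℝ))) atTop (𝓝 0) := by
    intro f hf
    refine (tendsto_const_nhds (x := (0:ℝ))).congr' ?_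
    filter_upwards [eventually_ge_atTop 1] with n hn
    obtain ⟨m, rfl⟩ : ∃ m, n = m + 1 := ⟨n - 1, by omega⟩
    rw [hf, Real.zero_rpow]
    positivity
  exact ⟨SA, SB, SA_nonempty, SB_nonempty, μ, η, hμ, hη, hμ1, hη1,
    (key _ maxMin_rho).limsup_eq, (key _ maxMin_rho).liminf_eq,
    (key _ minMax_rho).limsup_eq, (key _ minMax_rho).liminf_eq⟩

end Pool.Agent.Results.MP_36f7ac_an.NoBergerWang
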